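import Pool.Agent.Helper13.FR.Stmts

/-! Module CEN (MP_7a8f48_an, project FR): central projections with sum one. -/

set_option autoImplicit false

open Finset Filter

namespace Pool.Agent.Helper13.FR

open Pool.Agent.Helper16.MD

open scoped CStarAlgebra in
theorem cen_one (A : Type) [CStarAlgebra A] [PartialOrder A] [StarOrderedRing A] (H : ℕ)
    (q : ℕ → A) (y : A) (M : ℝ)
    (h1 : ∀ a ∈ range H, ∀ u : A, q a * u = u * q a) (h2 : ∀ a ∈ range H, star (q a) = q a)
    (h3 : ∀ a ∈ range H, q a * q a = q a) (h4 : ∑ a ∈ range H, q a = 1)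
    (h5 : 0 ≤ M) (h6 : ∀ a ∈ range H, ‖q a * y‖ ≤ M) : ‖y‖ ≤ M := by
  have hb : ∀ a ∈ range H, q a * (star y * y) ≤ (M ^ 2) • q a := by
    intro a ha
    have e1 : star (q a * y) * (q a * y) = q a * (star y * y) := by
      rw [star_mul, h2 a ha, mul_assoc, ← mul_assoc (q a) (q a) y, h3 a ha, ← mul_assoc,
        ← h1 a ha, mul_assoc]
    have e2 : star (q a) * (star (q a * y) * (q a * y)) * q a = q a * (star y * y) := by
      rw [e1, h2 a ha, ← mul_assoc, h3 a ha, mul_assoc, ← h1 a ha, ← mul_assoc, h3 a ha]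
    have e3 : star (q a) * q a = q a := by rw [h2 a ha, h3 a ha]
    have h7 := CStarAlgebra.star_left_conjugate_le_norm_smul (a := q a)
      (b := star (q a * y) * (q a * y)) (IsSelfAdjoint.star_mul_self _)
    rw [e2, e3, CStarRing.norm_star_mul_self] at h7
    refine h7.trans ?_
    have h8 : 0 ≤ q a := by
      rw [← e3]
      exact star_mul_self_nonneg _
    have h9 : ‖q a * y‖ * ‖q a * y‖ ≤ M ^ 2 := by
      rw [pow_two]
      exact mul_self_le_mul_self (norm_nonneg _) (h6 a ha)
    have h10 : 0 ≤ (M ^ 2 - ‖q a * y‖ * ‖q a * y‖) • q a := smul_nonneg (by linarith) h8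
    rw [sub_smul] at h10
    exact sub_nonneg.1 h10
  have h7 : star y * y ≤ (M ^ 2) • (1 : A) := by
    have := Finset.sum_le_sum hb
    rwa [← Finset.sum_mul, h4, one_mul, ← Finset.smul_sum, h4] at this
  have h8 : ‖star y * y‖ ≤ M ^ 2 := by
    rw [CStarAlgebra.norm_le_iff_le_algebraMap _ (by positivity) (star_mul_self_nonneg y)]
    rwa [Algebra.algebraMap_eq_smul_one]
  rw [CStarRing.norm_star_mul_self, pow_two] at h8
  exact le_of_not_gt fun h => absurd h8 (not_le.2 (mul_self_lt_mul_self h5 h))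

theorem st_CEN : ST_CEN := by
  intro A _ H q y M h1 h2 h3 h4 h5 h6
  let _ := CStarAlgebra.spectralOrder A
  let _ := CStarAlgebra.spectralOrderedRing A
  exact cen_one A H q y M h1 h2 h3 h4 h5 h6

end Pool.Agent.Helper13.FR
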