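import Pool.Agent.Helper13.FR.Stmts

/-! Module TOW (MP_7a8f48_an, project FR): the orbit in a tower. -/

set_option autoImplicit false

open Finset Filter

namespace Pool.Agent.Helper13.FR

open Pool.Agent.Helper16.MD

variable {A : Type} [CStarAlgebra A]

theorem tow_add (α : A →⋆ₐ[ℂ] A) (a b : ℕ) (v : A) : (α ^ (a + b)) v = (α ^ a) ((α ^ b) v) := by
  rw [pow_add]
  rfl

theorem tow_fix (α : A →⋆ₐ[ℂ] A) (n : ℕ) (p : A) (h : (α ^ n) p = p) (s : ℕ) :
    (α ^ (n * s)) p = p := by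
  induction s with
  | zero =>
    rw [Nat.mul_zero, pow_zero]
    rfl
  | succ s ih => rw [Nat.mul_succ, tow_add, h, ih]

theorem tow_norm (α : A →⋆ₐ[ℂ] A) (k : ℕ) (v : A) : ‖(α ^ k) v‖ ≤ ‖v‖ :=
  NonUnitalStarAlgHom.norm_apply_le (α ^ k) v

theorem tow_enum (S : Finset ℕ) (d n : ℕ) (hn : 0 < n) (hS : S ⊆ range n) (hc : S.card ≤ d) :
    ∃ e : ℕ → ℕ, (∀ c, e c < n) ∧ ∀ s ∈ S, ∃ c < d, e c = s := by
  refine ⟨fun c => if h : c < S.card then (S.equivFin.symm ⟨c, h⟩ : ℕ) else 0, ?_, ?_⟩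
  · intro c
    by_cases h : c < S.card
    · simp only [h, dite_true]
      exact Finset.mem_range.1 (hS (S.equivFin.symm ⟨c, h⟩).2)
    · simp only [h, dite_false]
      exact hn
  · intro s hs
    refine ⟨S.equivFin ⟨s, hs⟩, lt_of_lt_of_le (S.equivFin ⟨s, hs⟩).2 hc, ?_⟩
    simp

theorem st_TOW : ST_TOW := by
  intro A _ α n Λ d p q u z ε S S' hn hΛ hqp hp hq hq1 hz hS hS' hSd hSd' hcov hcov'
  have hH : 0 < n * Λ := by positivity
  have hz0 : z ≠ 0 := by
    intro h
    rw [h, norm_zero] at hz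
    norm_num at hz
  obtain ⟨e, he, heS⟩ := tow_enum S d n hn hS hSd
  obtain ⟨e', -, heS'⟩ := tow_enum S' d (n * Λ) hH hS' hSd'
  have h1 : ∀ i, i < n → ∃ c, c < d ∧ ‖p * (α ^ i) u - p * (α ^ (e c)) u‖ ≤ ε := by
    intro i hi
    obtain ⟨s, hs, h⟩ := hcov i (Finset.mem_range.2 hi)
    obtain ⟨c, hc, rfl⟩ := heS s hs
    exact ⟨c, hc, h⟩
  have h2 : ∀ i, i < n * Λ → ∃ c, c < d ∧ ‖q * (α ^ i) u - q * (α ^ (e' c)) u‖ ≤ ε := by
    intro i hi
    obtain ⟨s, hs, h⟩ := hcov' i (Finset.mem_range.2 hi)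
    obtain ⟨c, hc, rfl⟩ := heS' s hs
    exact ⟨c, hc, h⟩
  choose! ci hci hci2 using h1
  choose! ci' hci' hci2' using h2
  have h3 : ∀ s i, q * (α ^ (n * s)) (p * (α ^ i) u) = q * (α ^ (i + n * s)) u := by
    intro s i
    rw [map_mul, tow_fix α n p hp, ← tow_add, ← mul_assoc, hqp, Nat.add_comm]
  have h4 : ∀ s i, i < n → ‖q * (α ^ (i + n * s)) u - q * (α ^ (e (ci i) + n * s)) u‖ ≤ ε := by
    intro s i hi
    rw [← h3, ← h3, ← mul_sub, ← map_sub]
    calc ‖q * (α ^ (n * s)) (p * (α ^ i) u - p * (α ^ (e (ci i))) u)‖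
        ≤ ‖q‖ * ‖(α ^ (n * s)) (p * (α ^ i) u - p * (α ^ (e (ci i))) u)‖ := norm_mul_le _ _
      _ ≤ 1 * ‖p * (α ^ i) u - p * (α ^ (e (ci i))) u‖ :=
          mul_le_mul hq1 (tow_norm α _ _) (norm_nonneg _) zero_le_one
      _ ≤ ε := by
          rw [one_mul]
          exact hci2 i hi
  refine ⟨fun j x => if ci (x % n) = j / d then z ^ (x % n) else 0,
    fun j s => if ci' (e (j / d) + n * (s % Λ)) = j % d then z ^ (n * (s % Λ)) else 0,
    fun j r t => ((z⁻¹) ^ (n * Λ - r) * z ^ ((n * Λ) * t)) •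
      (α ^ (r + (t - 1) * (n * Λ))) (q * (α ^ (e' (j % d))) u), ?_, ?_, ?_, ?_, ?_⟩
  · intro j x
    constructor
    · beta_reduce
      split_ifs
      · rw [norm_pow, hz, one_pow]
      · rw [norm_zero]
        exact zero_le_one
    · beta_reduce
      split_ifs
      · rw [norm_pow, hz, one_pow]
      · rw [norm_zero]
        exact zero_le_one
  · intro j x
    beta_reduce
    rw [Nat.add_mod_right]
  · intro j x
    beta_reduce
    rw [Nat.add_mod_right]
  · intro j r t
    beta_reduce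
    rw [norm_smul, norm_mul, norm_pow, norm_pow, norm_inv, hz, inv_one, one_pow, one_pow,
      one_mul, one_mul]
    calc ‖(α ^ (r + (t - 1) * (n * Λ))) (q * (α ^ (e' (j % d))) u)‖
        ≤ ‖q * (α ^ (e' (j % d))) u‖ := tow_norm α _ _
      _ ≤ ‖q‖ * ‖(α ^ (e' (j % d))) u‖ := norm_mul_le _ _
      _ ≤ 1 * ‖u‖ := mul_le_mul hq1 (tow_norm α _ _) (norm_nonneg _) zero_le_one
      _ = ‖u‖ := one_mul _
  · intro r x hr hrx
    beta_reduce
    obtain ⟨t, y, hy, hty⟩ : ∃ t y, y < n * Λ ∧ x = r + (t * (n * Λ) + y) :=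
      ⟨(x - r) / (n * Λ), (x - r) % (n * Λ), Nat.mod_lt _ hH, by
        rw [Nat.mul_comm, Nat.div_add_mod]
        omega⟩
    have e1 : x + (n * Λ - r) = y + (t + 1) * (n * Λ) := by
      rw [hty, Nat.add_mul, Nat.one_mul]
      omega
    have e2 : (y + (t + 1) * (n * Λ)) / (n * Λ) = t + 1 := by
      rw [Nat.add_mul_div_right _ _ hH, Nat.div_eq_of_lt hy, Nat.zero_add]
    have e3 : (y + (t + 1) * (n * Λ)) % n = y % n := by
      have : (t + 1) * (n * Λ) = ((t + 1) * Λ) * n := by ring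
      rw [this, Nat.add_mul_mod_self_right]
    have e4 : (y + (t + 1) * (n * Λ)) / n = y / n + (t + 1) * Λ := by
      have : (t + 1) * (n * Λ) = ((t + 1) * Λ) * n := by ring
      rw [this, Nat.add_mul_div_right _ _ (by omega)]
    have hyn : y / n < Λ := Nat.div_lt_of_lt_mul hy
    have e5 : (y / n + (t + 1) * Λ) % Λ = y / n := by
      rw [Nat.add_mul_mod_self_right, Nat.mod_eq_of_lt hyn]
    have e6 : (α ^ r) q * (α ^ x) u = (α ^ (r + t * (n * Λ))) (q * (α ^ y) u) := by
      rw [tow_add, map_mul (α ^ (t * (n * Λ))), Nat.mul_comm t, tow_fix α _ q hq, ← tow_add,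
        map_mul, ← tow_add, hty, Nat.mul_comm t]
    have hymod : y % n < n := Nat.mod_lt _ (by omega)
    have hy' : y % n + n * (y / n) = y := Nat.mod_add_div y n
    set c0 := ci (y % n) with hc0
    have hc0d : c0 < d := hci _ hymod
    have hlt : e c0 + n * (y / n) < n * Λ := by
      calc e c0 + n * (y / n) < n + n * (y / n) := by
            have := he c0
            omega
        _ = n * (y / n + 1) := by ring
        _ ≤ n * Λ := Nat.mul_le_mul_left _ hyn
    set c1 := ci' (e c0 + n * (y / n)) with hc1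
    have hc1d : c1 < d := hci' _ hlt
    have hdpos : 0 < d := by omega
    have j1 : (c1 + c0 * d) / d = c0 := by
      rw [Nat.add_mul_div_right _ _ hdpos, Nat.div_eq_of_lt hc1d, Nat.zero_add]
    have j2 : (c1 + c0 * d) % d = c1 := by
      rw [Nat.add_mul_mod_self_right, Nat.mod_eq_of_lt hc1d]
    have j3 : c1 + c0 * d ∈ range (d * d) := by
      rw [Finset.mem_range]
      calc c1 + c0 * d < d + c0 * d := by omega
        _ = (c0 + 1) * d := by ring
        _ ≤ d * d := Nat.mul_le_mul_right _ hc0d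
    rw [e1, e2, e3, e4, e5, e6, Finset.sum_eq_single_of_mem (c1 + c0 * d) j3]
    · rw [j1, j2, if_pos hc0.symm, if_pos hc1.symm, Nat.add_sub_cancel, smul_smul]
      have ez : z ^ (y % n) * z ^ (n * (y / n)) * (z⁻¹ ^ (n * Λ - r) * z ^ (n * Λ * (t + 1))) =
          z ^ x := by
        rw [inv_pow]
        field_simp
        rw [← pow_add, ← pow_add, ← pow_add]
        congr 1
        rw [hty, Nat.mul_add]
        have : n * Λ * t = t * (n * Λ) := by ring
        rw [this, Nat.mul_one]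
        omega
      rw [ez, ← smul_sub, ← map_sub, norm_smul, norm_pow, hz, one_pow, one_mul]
      refine (tow_norm α _ _).trans ?_
      have k1 := h4 (y / n) (y % n) hymod
      rw [hy', ← hc0] at k1
      have k2 := hci2' _ hlt
      rw [← hc1] at k2
      calc ‖q * (α ^ y) u - q * (α ^ (e' c1)) u‖
          = ‖(q * (α ^ y) u - q * (α ^ (e c0 + n * (y / n))) u) +
            (q * (α ^ (e c0 + n * (y / n))) u - q * (α ^ (e' c1)) u)‖ := by
            congr 1
            abel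
        _ ≤ ε + ε := (norm_add_le _ _).trans (add_le_add k1 k2)
        _ = 2 * ε := by ring
    · intro j _ hj
      by_cases hj1 : c0 = j / d
      · by_cases hj2 : ci' (e (j / d) + n * (y / n)) = j % d
        · exfalso
          apply hj
          rw [← hj1, ← hc1] at hj2
          rw [hj1, hj2, Nat.mul_comm]
          exact (Nat.mod_add_div j d).symm
        · rw [if_neg hj2, mul_zero, zero_smul]
      · rw [if_neg hj1, zero_mul, zero_smul]

end Pool.Agent.Helper13.FR
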