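import Pool.Agent.Helper42.FR.Stmts

/-! Row OR of the sheet `Helper42/FR/Stmts.lean`. -/

set_option autoImplicit false

namespace Pool.Agent.Helper4.FR

open Matrix Module Pool.Agent.Helper81.Fmr Pool.Agent.Helper42.FR

universe u

variable {F : Type u} [Field F] {b : ℕ}

theorem rk_add (X Y : Matrix (Fin b) (Fin b) F) : (X + Y).rank ≤ X.rank + Y.rank :=
  rank_add_le' X Y

theorem rk_neg (X : Matrix (Fin b) (Fin b) F) : (-X).rank = X.rank := by
  have h1 : (-X).rank ≤ X.rank := by
    have : -X = (-1) * X := by simp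
    rw [this]; exact rank_mul_le_right _ _
  have h2 : X.rank ≤ (-X).rank := by
    have : X = (-1) * (-X) := by simp
    nth_rewrite 1 [this]; exact rank_mul_le_right _ _
  omega

theorem ae_trans {c d : ℕ} {X Y Z : Matrix (Fin b) (Fin b) F} (h1 : AE c X Y) (h2 : AE d Y Z) :
    AE (c + d) X Z := by
  unfold AE at *
  have : X - Z = (X - Y) + (Y - Z) := by abel
  rw [this]
  exact le_trans (rk_add _ _) (by omega)

theorem ae_mono {c d : ℕ} {X Y : Matrix (Fin b) (Fin b) F} (h1 : AE c X Y) (h : c ≤ d) :
    AE d X Y := le_trans h1 h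

theorem ae_mul_left {c : ℕ} {X Y : Matrix (Fin b) (Fin b) F} (A : Matrix (Fin b) (Fin b) F)
    (h : AE c X Y) : AE c (A * X) (A * Y) := by
  unfold AE at *
  rw [← mul_sub]
  exact le_trans (rank_mul_le_right _ _) h

theorem ae_mul_right {c : ℕ} {X Y : Matrix (Fin b) (Fin b) F} (A : Matrix (Fin b) (Fin b) F)
    (h : AE c X Y) : AE c (X * A) (Y * A) := by
  unfold AE at *
  rw [← sub_mul]
  exact le_trans (rank_mul_le_left _ _) h

theorem ae_rank {c : ℕ} {X Y : Matrix (Fin b) (Fin b) F} (h : AE c X Y) :
    X.rank ≤ Y.rank + c := by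
  unfold AE at h
  have : X = Y + (X - Y) := by abel
  rw [this]
  exact le_trans (rk_add _ _) (by omega)

theorem ae_symm {c : ℕ} {X Y : Matrix (Fin b) (Fin b) F} (h : AE c X Y) : AE c Y X := by
  unfold AE at *
  rw [← rk_neg, neg_sub]
  exact h

theorem ae_sum {c : ℕ} {ι : Type} (s : Finset ι) (X Y : ι → Matrix (Fin b) (Fin b) F)
    (h : ∀ i ∈ s, AE c (X i) (Y i)) : AE (s.card * c) (∑ i ∈ s, X i) (∑ i ∈ s, Y i) := by
  classical
  induction s using Finset.induction_on with
  | empty => simp [AE]
  | insert i s hi ih =>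
    rw [Finset.sum_insert hi, Finset.sum_insert hi, Finset.card_insert_of_notMem hi]
    have h1 := h i (Finset.mem_insert_self i s)
    have h2 := ih fun j hj => h j (Finset.mem_insert_of_mem hj)
    unfold AE at *
    have : X i + ∑ i ∈ s, X i - (Y i + ∑ i ∈ s, Y i) =
        (X i - Y i) + (∑ i ∈ s, X i - ∑ i ∈ s, Y i) := by abel
    rw [this]
    refine le_trans (rk_add _ _) ?_
    have : (s.card + 1) * c = s.card * c + c := by ring
    omega

theorem sub_key (x : (Fin b → F) →ₗ[F] (Fin b → F)) (p q : Submodule F (Fin b → F))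
    (hpq : p ≤ q) :
    finrank F (q.map x) + finrank F p ≤ finrank F q + finrank F (p.map x) := by
  have hp := (x.domRestrict p).finrank_range_add_finrank_ker
  have hq := (x.domRestrict q).finrank_range_add_finrank_ker
  rw [LinearMap.range_domRestrict] at hp hq
  have hk : finrank F (LinearMap.ker (x.domRestrict p)) ≤
      finrank F (LinearMap.ker (x.domRestrict q)) := by
    have hf : ∀ w ∈ LinearMap.ker (x.domRestrict p), Submodule.inclusion hpq w ∈
        LinearMap.ker (x.domRestrict q) := by
      intro w hw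
      rw [LinearMap.mem_ker] at hw ⊢
      exact hw
    apply LinearMap.finrank_le_finrank_of_injective
      (f := (Submodule.inclusion hpq).restrict hf)
    intro v w hvw
    have := congrArg Subtype.val hvw
    exact Subtype.ext (Submodule.inclusion_injective hpq this)
  omega

theorem frob (X Y Z : Matrix (Fin b) (Fin b) F) :
    (X * Y).rank + (Y * Z).rank ≤ Y.rank + (X * Y * Z).rank := by
  have h := sub_key X.mulVecLin (LinearMap.range (Y * Z).mulVecLin)
    (LinearMap.range Y.mulVecLin) (by
      rw [Matrix.mulVecLin_mul]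
      exact LinearMap.range_comp_le_range _ _)
  rw [← LinearMap.range_comp, ← LinearMap.range_comp, ← Matrix.mulVecLin_mul,
    ← Matrix.mulVecLin_mul, ← mul_assoc] at h
  exact h

theorem or_two {c : ℕ} {E : Fin 5 → Matrix (Fin b) (Fin b) F} {f : Matrix (Fin b) (Fin b) F}
    (h1 : ∀ i, AE c (E i * E i) (E i)) (h2 : ∀ i j, i ≠ j → AE c (E i * E j) 0)
    (h3 : ∀ i, AE c (E i * f) (f * E i)) (s : Finset (Fin 5)) :
    (∑ i ∈ s, (E i * f).rank) ≤ (f * ∑ i ∈ s, E i).rank + s.card * (70 * c) := by
  classical
  induction s using Finset.induction_on with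
  | empty => simp
  | insert i s hi ih =>
    have hs5 : s.card ≤ 5 := by simpa using Finset.card_le_univ s
    have hs5' : (insert i s).card ≤ 5 := by simpa using Finset.card_le_univ (insert i s)
    have hfE : ∀ j k, AE (2 * c) (E j * f * E k) (if k = j then E j * f else 0) := by
      intro j k
      have a1 : AE c (E j * f * E k) (E j * E k * f) := by
        rw [mul_assoc, mul_assoc]
        exact ae_mul_left _ (ae_symm (h3 k))
      have a2 : AE c (E j * E k * f) (if k = j then E j * f else 0) := by
        by_cases hkj : k = j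
        · subst hkj
          rw [if_pos rfl]
          exact ae_mul_right _ (h1 k)
        · rw [if_neg hkj]
          have := ae_mul_right f (h2 j k (Ne.symm hkj))
          rwa [zero_mul] at this
      exact ae_mono (ae_trans a1 a2) (by omega)
    have ha : AE (10 * c) (E i * (f * ∑ j ∈ insert i s, E j)) (E i * f) := by
      have e1 : E i * (f * ∑ j ∈ insert i s, E j) = ∑ j ∈ insert i s, E i * f * E j := by
        rw [← mul_assoc, Finset.mul_sum]
      have e2 : E i * f = ∑ j ∈ insert i s, (if j = i then E i * f else 0) := by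
        rw [Finset.sum_ite_eq' (insert i s) i (fun _ => E i * f),
          if_pos (Finset.mem_insert_self i s)]
      rw [e1]
      nth_rewrite 2 [e2]
      refine ae_mono (ae_sum _ _ _ fun j _ => hfE i j) ?_
      nlinarith
    have hb : AE (25 * c) ((∑ j ∈ insert i s, E j) * ∑ k ∈ s, E k) (∑ k ∈ s, E k) := by
      have e1 : (∑ j ∈ insert i s, E j) * ∑ k ∈ s, E k =
          ∑ k ∈ s, ∑ j ∈ insert i s, E j * E k := by
        rw [Finset.mul_sum]
        exact Finset.sum_congr rfl fun k _ => Finset.sum_mul _ _ _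
      have e2 : ∑ k ∈ s, E k = ∑ k ∈ s, ∑ j ∈ insert i s, (if j = k then E k else 0) := by
        refine Finset.sum_congr rfl fun k hk => ?_
        rw [Finset.sum_ite_eq' (insert i s) k (fun _ => E k),
          if_pos (Finset.mem_insert_of_mem hk)]
      rw [e1, e2]
      refine ae_mono (ae_sum (c := 5 * c) _ _ _ fun k _ => ?_) (by nlinarith)
      refine ae_mono (ae_sum (c := c) _ _ _ fun j _ => ?_) (by nlinarith)
      by_cases hjk : j = k
      · subst hjk
        rw [if_pos rfl]
        exact h1 j
      · rw [if_neg hjk]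
        exact h2 j k hjk
    have hc : AE (35 * c) (E i * (f * ∑ j ∈ insert i s, E j) * ∑ k ∈ s, E k) 0 := by
      have a1 : AE (25 * c) (E i * (f * ∑ j ∈ insert i s, E j) * ∑ k ∈ s, E k)
          (E i * f * ∑ k ∈ s, E k) := by
        have := ae_mul_left (E i * f) hb
        rwa [← mul_assoc, mul_assoc (E i) f] at this
      have a2 : AE (10 * c) (E i * f * ∑ k ∈ s, E k) 0 := by
        rw [Finset.mul_sum]
        have e2 : (0 : Matrix (Fin b) (Fin b) F) =
            ∑ k ∈ s, (if k = i then E i * f else 0) := by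
          rw [Finset.sum_ite_eq' s i (fun _ => E i * f), if_neg hi]
        rw [e2]
        refine ae_mono (ae_sum _ _ _ fun j _ => hfE i j) ?_
        nlinarith
      exact ae_mono (ae_trans a1 a2) (by omega)
    have hF := frob (E i) (f * ∑ j ∈ insert i s, E j) (∑ k ∈ s, E k)
    have g1 := ae_rank (ae_symm ha)
    have g2 : (f * ∑ k ∈ s, E k).rank ≤
        (f * (∑ j ∈ insert i s, E j) * ∑ k ∈ s, E k).rank + 25 * c := by
      have := ae_rank (ae_symm (ae_mul_left f hb))
      rwa [← mul_assoc] at this
    have g3 := ae_rank hc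
    rw [rank_zero] at g3
    rw [Finset.sum_insert hi, Finset.card_insert_of_notMem hi]
    have : (s.card + 1) * (70 * c) = s.card * (70 * c) + 70 * c := by ring
    omega

/-- Row OR. -/
theorem st_OR (F : Type u) [Field F] : ST_OR F := by
  refine ⟨350, fun b c E f h1 h2 h3 h4 => ⟨?_, ?_⟩⟩
  · have hP : ∀ (j k : Fin 5) (P : Matrix (Fin b) (Fin b) F) (d : ℕ), j ≠ k →
        AE d (E j * P) (E j) → AE (d + c) (E j * ((1 - E k) * P)) (E j) := by
      intro j k P d hjk hd
      have a1 : AE c (E j * ((1 - E k) * P)) (E j * P) := by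
        have e : E j * ((1 - E k) * P) - E j * P = -(E j * E k * P) := by
          noncomm_ring
        unfold AE
        rw [e, rk_neg]
        have := h2 j k hjk
        unfold AE at this
        rw [sub_zero] at this
        exact le_trans (rank_mul_le_left _ _) this
      exact ae_mono (ae_trans a1 hd) (by omega)
    have hR : ∀ (k : Fin 5) (P : Matrix (Fin b) (Fin b) F) (d : ℕ), AE d (E k * P) (E k) →
        (P * f).rank ≤ ((1 - E k) * P * f).rank + (E k * f).rank + d := by
      intro k P d hd
      have e : P * f = (1 - E k) * P * f + E k * P * f := by noncomm_ring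
      have a1 := ae_rank (ae_mul_right f hd)
      have a2 := rk_add ((1 - E k) * P * f) (E k * P * f)
      rw [← e] at a2
      omega
    have q0 : ∀ j, AE 0 (E j * 1) (E j) := fun j => by simp [AE]
    have q43 := hP 3 4 1 0 (by decide) (q0 3)
    have q42 := hP 2 4 1 0 (by decide) (q0 2)
    have q41 := hP 1 4 1 0 (by decide) (q0 1)
    have q40 := hP 0 4 1 0 (by decide) (q0 0)
    have q32 := hP 2 3 _ _ (by decide) q42
    have q31 := hP 1 3 _ _ (by decide) q41
    have q30 := hP 0 3 _ _ (by decide) q40
    have q21 := hP 1 2 _ _ (by decide) q31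
    have q20 := hP 0 2 _ _ (by decide) q30
    have q10 := hP 0 1 _ _ (by decide) q20
    have r4 := hR 4 1 0 (q0 4)
    have r3 := hR 3 _ _ q43
    have r2 := hR 2 _ _ q32
    have r1 := hR 1 _ _ q21
    have r0 := hR 0 _ _ q10
    have hlast : ((1 - E 0) * ((1 - E 1) * ((1 - E 2) * ((1 - E 3) * ((1 - E 4) * 1)))) *
        f).rank ≤ c := by
      have e : (1 - E 0) * ((1 - E 1) * ((1 - E 2) * ((1 - E 3) * ((1 - E 4) * 1)))) =
          (1 - E 0) * (1 - E 1) * (1 - E 2) * (1 - E 3) * (1 - E 4) := by
        simp only [mul_assoc, mul_one]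
      rw [e]
      unfold AE at h3
      rw [sub_zero] at h3
      exact le_trans (rank_mul_le_left _ _) h3
    rw [one_mul] at r4
    rw [Fin.sum_univ_five]
    simp only [mul_assoc] at r0 r1 r2 r3 r4 hlast ⊢
    omega
  · have h := or_two h1 h2 h4 Finset.univ
    have h' := rank_mul_le_left f (∑ i, E i)
    have h5 : (Finset.univ : Finset (Fin 5)).card = 5 := by simp
    rw [h5] at h
    omega

end Pool.Agent.Helper4.FR
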